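import Pool.Agent.H674R3.SiegelE

/-!
An explicit polynomial bound, in terms of its own coefficients only, for the integer points on all
but boundedly many of the infinitely many plane curves with given four leading forms.
-/

set_option autoImplicit false

open Polynomial

namespace Pool.Agent.Results.MP_821da1_nt.BoundedlyManyExceptions

/-- Let `F ∈ ℤ[x, y]` have degree `d ≥ 4` and a leading form that is squarefree over `ℚ`; if the
leading form is irreducible over `ℚ`, assume that the restriction of `F` to each real line has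
degree at least `d - 2`. Let `G` run through ALL the polynomials that are irreducible over `ℚ` and
agree with `F` in the degrees larger than `d - 4`, and let `h(G)` be the sum of the absolute values
of the coefficients of `G`. Then on all these infinitely many curves `G = 0` together there are at
most `10^9 36^d (d+1)^8` integer points `(x, y)` with `max(|x|, |y|) > ((d+1) h(G))^C`,
`C = 10^17 1296^d (d+1)^15`. In particular at most `10^9 36^d (d+1)^8` of the curves have such an
integer point. -/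
theorem result (d : ℕ) (hd : 4 ≤ d) (F : MvPolynomial (Fin 2) ℤ) (hF : F.totalDegree = d)
    (hsq : Squarefree (MvPolynomial.map (Int.castRingHom ℚ)
      (MvPolynomial.homogeneousComponent d F)))
    (hlines : Irreducible (MvPolynomial.map (Int.castRingHom ℚ)
      (MvPolynomial.homogeneousComponent d F)) →
      ∀ p q : Fin 2 → ℝ, q ≠ 0 → d ≤
      (MvPolynomial.aeval (fun i => (C (p i) + C (q i) * X : ℝ[X])) F).natDegree + 2) :
    Set.encard {t : MvPolynomial (Fin 2) ℤ × ℤ × ℤ | (t.1 - F).totalDegree + 4 ≤ d ∧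
      Irreducible (MvPolynomial.map (Int.castRingHom ℚ) t.1) ∧
      MvPolynomial.eval ![t.2.1, t.2.2] t.1 = 0 ∧
      ((d + 1) * ∑ m ∈ t.1.support, (t.1.coeff m).natAbs) ^ (10 ^ 17 * 1296 ^ d * (d + 1) ^ 15)
        < max t.2.1.natAbs t.2.2.natAbs}
      ≤ (10 ^ 9 * 36 ^ d * (d + 1) ^ 8 : ℕ) ∧
    Set.encard {G : MvPolynomial (Fin 2) ℤ | (G - F).totalDegree + 4 ≤ d ∧
      Irreducible (MvPolynomial.map (Int.castRingHom ℚ) G) ∧
      ∃ x y : ℤ, MvPolynomial.eval ![x, y] G = 0 ∧
        ((d + 1) * ∑ m ∈ G.support, (G.coeff m).natAbs) ^ (10 ^ 17 * 1296 ^ d * (d + 1) ^ 15)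
          < max x.natAbs y.natAbs}
      ≤ (10 ^ 9 * 36 ^ d * (d + 1) ^ 8 : ℕ) := by
  subst hF
  have h0 := Pool.Agent.H674R3.main6 F hd hsq hlines
  have hN : Pool.Agent.H322R2.kN F.totalDegree * F.totalDegree
      ≤ 10 ^ 9 * 36 ^ F.totalDegree * (F.totalDegree + 1) ^ 8 := by
    unfold Pool.Agent.H322R2.kN
    rw [pow_succ (F.totalDegree + 1) 7, ← mul_assoc]
    exact Nat.mul_le_mul_left _ (by omega)
  have h1 : Set.encard {t : MvPolynomial (Fin 2) ℤ × ℤ × ℤ |
      (t.1 - F).totalDegree + 4 ≤ F.totalDegree ∧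
      Irreducible (MvPolynomial.map (Int.castRingHom ℚ) t.1) ∧
      MvPolynomial.eval ![t.2.1, t.2.2] t.1 = 0 ∧
      ((F.totalDegree + 1) * ∑ m ∈ t.1.support, (t.1.coeff m).natAbs) ^
        (10 ^ 17 * 1296 ^ F.totalDegree * (F.totalDegree + 1) ^ 15)
        < max t.2.1.natAbs t.2.2.natAbs}
      ≤ (10 ^ 9 * 36 ^ F.totalDegree * (F.totalDegree + 1) ^ 8 : ℕ) := by
    refine le_trans h0 ?_
    exact_mod_cast hN
  refine ⟨h1, le_trans ?_ h1⟩
  refine le_trans (Set.encard_le_encard ?_) (Set.encard_image_le (fun t => t.1) _)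
  rintro G ⟨g1, g2, x, y, g3, g4⟩
  exact ⟨(G, x, y), ⟨g1, g2, g3, g4⟩, rfl⟩

end Pool.Agent.Results.MP_821da1_nt.BoundedlyManyExceptions
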