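import Pool.Agent.H674R3.CovE

/-!
All curves with simple points at infinity, no condition on flexes: the integer points of size larger
than an explicit power of the height of their curve, on all the infinitely many curves with given
four leading forms, form a finite set that lies on boundedly many lines.
-/

set_option autoImplicit false

namespace Pool.Agent.Results.MP_821da1_nt.ExceptionsOnFewLines

/-- Let `F ∈ ℤ[x, y]` have degree `d ≥ 4` and a leading form that is squarefree over `ℚ`. Let `G`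
run through ALL polynomials in `ℤ[x, y]` that are irreducible over `ℚ` and agree with `F` in the
degrees larger than `d - 4`; `h(G)` is the sum of the absolute values of the coefficients of `G`.
The integer points `(x, y)` with `G(x, y) = 0` and `max(|x|, |y|) > ((d+1) h(G))^C` for some such
`G`, where `C = 10^17 1296^d (d+1)^15`, form a finite set, and they all lie on at most
`10^9 36^d (d+1)^8` lines `l₁ x + l₂ y = l₃` with integer coefficients. -/
theorem result (d : ℕ) (hd : 4 ≤ d) (F : MvPolynomial (Fin 2) ℤ) (hF : F.totalDegree = d)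
    (hsq : Squarefree (MvPolynomial.map (Int.castRingHom ℚ)
      (MvPolynomial.homogeneousComponent d F))) :
    {P : ℤ × ℤ | ∃ G : MvPolynomial (Fin 2) ℤ, (G - F).totalDegree + 4 ≤ d ∧
      Irreducible (MvPolynomial.map (Int.castRingHom ℚ) G) ∧
      MvPolynomial.eval ![P.1, P.2] G = 0 ∧
      ((d + 1) * ∑ m ∈ G.support, (G.coeff m).natAbs) ^ (10 ^ 17 * 1296 ^ d * (d + 1) ^ 15)
        < max P.1.natAbs P.2.natAbs}.Finite ∧
    ∃ L : Finset (ℤ × ℤ × ℤ), L.card ≤ 10 ^ 9 * 36 ^ d * (d + 1) ^ 8 ∧
      (∀ l ∈ L, l.1 ≠ 0 ∨ l.2.1 ≠ 0) ∧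
      ∀ (G : MvPolynomial (Fin 2) ℤ) (x y : ℤ), (G - F).totalDegree + 4 ≤ d →
        Irreducible (MvPolynomial.map (Int.castRingHom ℚ) G) →
        MvPolynomial.eval ![x, y] G = 0 →
        ((d + 1) * ∑ m ∈ G.support, (G.coeff m).natAbs) ^ (10 ^ 17 * 1296 ^ d * (d + 1) ^ 15)
          < max x.natAbs y.natAbs →
        ∃ l ∈ L, l.1 * x + l.2.1 * y = l.2.2 := by
  subst hF
  obtain ⟨h1, L, h2, h3, h4⟩ := Pool.Agent.H674R3.main7 F hd hsq
  refine ⟨h1, L, h2.trans (Pool.Agent.H674R3.kL_le _), h3, ?_⟩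
  intro G x y g1 g2 g3 g4
  exact h4 (x, y) ⟨G, g1, g2, g3, g4⟩

end Pool.Agent.Results.MP_821da1_nt.ExceptionsOnFewLines
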