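import Mathlib
import Pool.Agent.H533R3.SL.GmK

/-!
# Effective bounds for the sparse integer points on plane curves

Let `F ∈ ℤ[x, y]` define a curve without nonconstant parametrisation by Laurent polynomials over
`ℚ` (for instance `F` absolutely irreducible of genus at least one).  We bound, explicitly in terms
of the degree of `F` and of the sum of the absolute values of its coefficients, all integer
points `(x, y)` on `F = 0` which can be written as
`x = ∑ b ^ m_j u_j`, `y = ∑ b ^ m_j w_j` with `r` terms, in some base `b ≥ 2` and with integers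
`u_j`, `w_j` of absolute value at most `B`.  The bound is a power of `B` and does not depend
on `b`.
-/

namespace Pool.Agent.Results.MP_821da1_nt.SparseIntegerPoints

open NumberField Pool.Agent.H458.Sp Pool.Agent.H533R3.SL

/-- the integer point `(x, y)` is `r`-sparse in base `b`, with digits of size at most `B` -/
def Sparse (b r : ℕ) (B : ℝ) (x y : ℤ) : Prop :=
  ∃ (m : Fin r → ℕ) (u w : Fin r → ℤ), (∀ j, |(u j : ℝ)| ≤ B ∧ |(w j : ℝ)| ≤ B) ∧
    x = ∑ j, (b : ℤ) ^ m j * u j ∧ y = ∑ j, (b : ℤ) ^ m j * w j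

/-- the same for a point with coordinates in `ℤ[1/b]`: the exponents are in `ℤ` -/
def SparseFrac (b r : ℕ) (B : ℝ) (x y : ℚ) : Prop :=
  ∃ (m : Fin r → ℤ) (u w : Fin r → ℤ), (∀ j, |(u j : ℝ)| ≤ B ∧ |(w j : ℝ)| ≤ B) ∧
    x = ∑ j, (b : ℚ) ^ m j * u j ∧ y = ∑ j, (b : ℚ) ^ m j * w j

/-- the effective bound, a power of `B` -/
noncomputable def bound (d : ℕ) (A : ℝ) (r : ℕ) (B : ℝ) : ℝ :=
  (Real.exp 1 * A * (r + 1) ^ d * B ^ (d + 1)) ^
    ((8 * d * (6 + 8 * d + 4 * Real.log A)) ^ (r + 1))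

theorem bound_eq (d : ℕ) (A : ℝ) (hA : 1 ≤ A) (r : ℕ) (B : ℝ) (hB : 1 ≤ B) :
    Real.exp ((8 * d * (6 + 8 * d + 4 * Real.log A)) ^ (r + 1) *
      (1 + Real.log B + Real.log (A * ((r + 1 : ℕ) * B) ^ d))) = bound d A r B := by
  have hA0 : A ≠ 0 := by linarith
  have hB0 : B ≠ 0 := by linarith
  have hr0 : ((r : ℝ) + 1) ≠ 0 := by positivity
  have hpos : 0 < Real.exp 1 * A * (r + 1) ^ d * B ^ (d + 1) := by positivity
  unfold bound
  rw [Real.rpow_def_of_pos hpos, mul_comm (Real.log _)]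
  congr 2
  have h1 : Real.log (A * ((r + 1 : ℕ) * B) ^ d) =
      Real.log A + d * (Real.log (r + 1) + Real.log B) := by
    push_cast
    rw [Real.log_mul hA0 (by positivity), Real.log_pow, Real.log_mul hr0 hB0]
  have h2 : Real.log (Real.exp 1 * A * (r + 1) ^ d * B ^ (d + 1)) =
      1 + Real.log A + d * Real.log (r + 1) + (d + 1) * Real.log B := by
    rw [Real.log_mul (by positivity) (by positivity), Real.log_mul (by positivity) (by positivity),
      Real.log_mul (by positivity) hA0, Real.log_exp, Real.log_pow, Real.log_pow]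
    push_cast
    ring
  rw [h1, h2]
  ring

/-- an algebraic integer of `ℚ` is an integer -/
theorem exists_int (a : 𝓞 ℚ) : ∃ z : ℤ, a = (z : 𝓞 ℚ) := by
  refine ⟨Rat.ringOfIntegersEquiv a, ?_⟩
  apply Rat.ringOfIntegersEquiv.injective
  simp

/-- `F` has no nonconstant solution in Laurent polynomials over `ℚ`, total degree at most `d` and
sum of the absolute values of the coefficients at most `A`.  (1) All integer points on `F = 0`
which are `r`-sparse in some base `b ≥ 2` with digits of size at most `B` are bounded by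
`bound d A r B`.  (2) All points with coordinates in `ℤ[1/b]` on `F = 0` which are `r`-sparse in
base `b` with digits of size at most `B` have a common denominator and numerators bounded by
`bound d A r B`. -/
theorem result (F : MvPolynomial (Fin 2) ℤ) (d : ℕ) (hd : 1 ≤ d) (hF : F.totalDegree ≤ d) (A : ℝ)
    (hA : 1 ≤ A) (hFA : ∑ α ∈ F.support, |((MvPolynomial.coeff α F : ℤ) : ℝ)| ≤ A)
    (hyp : NoLaurent F) (r : ℕ) (B : ℝ) (hB : 1 ≤ B) :
    (∀ b : ℕ, 2 ≤ b → ∀ x y : ℤ, MvPolynomial.eval ![x, y] F = 0 → Sparse b r B x y →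
      |(x : ℝ)| ≤ bound d A r B ∧ |(y : ℝ)| ≤ bound d A r B) ∧
    (∀ b : ℕ, 2 ≤ b → ∀ x y : ℚ, MvPolynomial.aeval ![x, y] F = 0 → SparseFrac b r B x y →
      ∃ z₀ z₁ z₂ : ℤ, z₀ ≠ 0 ∧ |(z₀ : ℝ)| ≤ bound d A r B ∧ |(z₁ : ℝ)| ≤ bound d A r B ∧
        |(z₂ : ℝ)| ≤ bound d A r B ∧ x = z₁ / z₀ ∧ y = z₂ / z₀) := by
  have key : ∀ b : ℕ, 2 ≤ b → ∀ x y : ℚ, MvPolynomial.aeval ![x, y] F = 0 →
      SparseFrac b r B x y → ∃ z₀ z₁ z₂ : ℤ, z₀ ≠ 0 ∧ |(z₀ : ℝ)| ≤ bound d A r B ∧
        |(z₁ : ℝ)| ≤ bound d A r B ∧ |(z₂ : ℝ)| ≤ bound d A r B ∧ x = z₁ / z₀ ∧ y = z₂ / z₀ := by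
    rintro b hb x y hxy ⟨m, u, w, huw, hx, hy⟩
    have h := gm_self ℚ 2 {homZ d F} d hd A hA
      (by
        rintro G rfl
        exact ⟨⟨d, le_rfl, homZ_homog d F hF⟩, (homZ_nrm d F).trans hFA⟩)
      (by
        intro a p hp0 hp
        exact noGm_of_noLaurent d F hF hyp a p hp0 (hp _ rfl))
      r B hB b hb m (fun j => ![((u j : ℤ) : 𝓞 ℚ), ((w j : ℤ) : 𝓞 ℚ)])
      (by
        intro j i
        fin_cases i
        · simpa [hs_int] using (huw j).1
        · simpa [hs_int] using (huw j).2)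
      ![x, y]
      (by
        intro i
        fin_cases i
        · simpa using hx
        · simpa using hy)
      (by
        rintro G rfl
        rw [homZ_aeval, ← hxy, MvPolynomial.aeval_def, MvPolynomial.eval₂_eq']
        refine Finset.sum_congr rfl fun α _ => ?_
        simp)
    rw [bound_eq d A hA r B hB] at h
    obtain ⟨y₀, hy0, hy0H, z, hz, hxz⟩ := h
    obtain ⟨z₀, rfl⟩ := exists_int y₀
    obtain ⟨z₁, h1⟩ := exists_int (z 0)
    obtain ⟨z₂, h2⟩ := exists_int (z 1)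
    have hz0 := hz 0
    have hz1 := hz 1
    have hx0 := hxz 0
    have hx1 := hxz 1
    rw [h1, hs_int] at hz0
    rw [h2, hs_int] at hz1
    rw [hs_int] at hy0H
    rw [h1] at hx0
    rw [h2] at hx1
    refine ⟨z₀, z₁, z₂, ?_, hy0H, hz0, hz1, by simpa using hx0, by simpa using hx1⟩
    rintro rfl
    exact hy0 (by simp)
  refine ⟨?_, key⟩
  rintro b hb x y hxy ⟨m, u, w, huw, hx, hy⟩
  have h1 : MvPolynomial.aeval ![(x : ℚ), (y : ℚ)] F = 0 := by
    have h2 := congrArg (Int.castRingHom ℚ) hxy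
    rw [map_zero, MvPolynomial.eval, MvPolynomial.coe_eval₂Hom, MvPolynomial.hom_eval₂] at h2
    rw [MvPolynomial.aeval_def, ← h2]
    congr 1
    funext i
    fin_cases i <;> simp
  obtain ⟨z₀, z₁, z₂, hz0, h3, h4, h5, h6, h7⟩ := key b hb x y h1
    ⟨fun j => (m j : ℤ), u, w, huw, by rw [hx]; push_cast; simp [zpow_natCast],
      by rw [hy]; push_cast; simp [zpow_natCast]⟩
  have hz0' : (1 : ℝ) ≤ |(z₀ : ℝ)| := by
    have : (1 : ℤ) ≤ |z₀| := Int.one_le_abs hz0
    exact_mod_cast this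
  have hz0q : (z₀ : ℚ) ≠ 0 := by exact_mod_cast hz0
  constructor
  · have h8 : x * z₀ = z₁ := by
      rw [eq_div_iff hz0q] at h6
      exact_mod_cast h6
    have h9 : |(x : ℝ)| * |(z₀ : ℝ)| = |(z₁ : ℝ)| := by
      rw [← abs_mul]
      congr 1
      exact_mod_cast h8
    nlinarith [abs_nonneg (x : ℝ)]
  · have h8 : y * z₀ = z₂ := by
      rw [eq_div_iff hz0q] at h7
      exact_mod_cast h7
    have h9 : |(y : ℝ)| * |(z₀ : ℝ)| = |(z₂ : ℝ)| := by
      rw [← abs_mul]
      congr 1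
      exact_mod_cast h8
    nlinarith [abs_nonneg (y : ℝ)]

end Pool.Agent.Results.MP_821da1_nt.SparseIntegerPoints
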